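import Mathlib

open Finset MeasureTheory
open scoped ENNReal

namespace Pool.Agent.Results.MP_cb142b_pr.AllGraphs

set_option linter.unusedSectionVars false

noncomputable section

section Defs

variable {V : Type} [Fintype V] [DecidableEq V] (G : SimpleGraph V) [DecidableRel G.Adj]

/-- Jump probabilities of simple random walk on `G`: `P(x,y) = 1/deg(x)` if `x` and `y` are
adjacent, and `0` otherwise. -/
def P (x y : V) : ℝ := if G.Adj x y then 1 / (G.degree x : ℝ) else 0

/-- The stationary law `π(x) = deg(x) / (2|E|)`. -/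
def stat (x : V) : ℝ := (G.degree x : ℝ) / (2 * (G.edgeFinset.card : ℝ))

/-- The Dirichlet form `E(h,h) = (1/2) ∑_{x,y} π(x) P(x,y) (h(x)-h(y))²`. -/
def energy (h : V → ℝ) : ℝ := (1 / 2) * ∑ x, ∑ y, stat G x * P G x y * (h x - h y) ^ 2

/-- The variance of `h` under `π`. -/
def variance (h : V → ℝ) : ℝ := ∑ x, stat G x * (h x) ^ 2 - (∑ x, stat G x * h x) ^ 2

/-- `π(supp h)`. -/
def suppMass (h : V → ℝ) : ℝ := ∑ x, if h x ≠ 0 then stat G x else 0

/-- The spectral profile: `Λ(ε)` is the minimum of `E(h,h)` over the `h` with `Var h = 1` and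
`π(supp h) ≤ ε`, and `+∞` if there is no such `h`. -/
def profile (ε : ℝ) : ℝ≥0∞ :=
  ⨅ h : {h : V → ℝ // variance G h = 1 ∧ suppMass G h ≤ ε}, ENNReal.ofReal (energy G h.1)

/-- `π_* = min_x π(x)`. -/
def piMin : ℝ := ⨅ x, stat G x

/-- The spectral-profile time `∫_{4π_*}^{16} 2 dδ / (δ Λ(δ))`. -/
def tsp : ℝ≥0∞ :=
  ∫⁻ δ in Set.Ioc (4 * piMin G) 16, 2 / (ENNReal.ofReal δ * profile G δ)

/-- Probability that the jump chain started at `x` does not visit `y` at times `0, ..., n`. -/
def avoid (y : V) : ℕ → V → ℝ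
  | 0, x => if x = y then 0 else 1
  | n + 1, x => if x = y then 0 else ∑ z, P G x z * avoid y n z

/-- `P_x(T_y > t)` for the continuous-time walk with jump rate `1`: the number of jumps up to time
`t` is Poisson with mean `t` and independent of the jump chain. -/
def surv (x y : V) (t : ℝ) : ℝ≥0∞ :=
  ∑' n : ℕ, ENNReal.ofReal (Real.exp (-t) * t ^ n / (n.factorial : ℝ) * avoid G y n x)

/-- The expected hitting time `E_x[T_y] = ∫_0^∞ P_x(T_y > t) dt`. -/
def hit (x y : V) : ℝ≥0∞ := ∫⁻ t in Set.Ioi (0 : ℝ), surv G x y t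

/-- `t_hit = max_{x,y} E_x[T_y]`. -/
def thit : ℝ≥0∞ := ⨆ x, ⨆ y, hit G x y

end Defs

section Proof

variable {V : Type} [Fintype V] [DecidableEq V] {G : SimpleGraph V} [DecidableRel G.Adj]

theorem P_nonneg (x y : V) : 0 ≤ P G x y := by
  unfold P; split_ifs <;> positivity

theorem avoid_nonneg (y : V) (n : ℕ) (x : V) : 0 ≤ avoid G y n x := by
  induction n generalizing x with
  | zero => simp only [avoid]; split_ifs <;> norm_num
  | succ n ih =>
    simp only [avoid]
    split_ifs
    · exact le_rfl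
    · exact Finset.sum_nonneg fun z _ => mul_nonneg (P_nonneg _ _) (ih z)

theorem lint_poisson (n : ℕ) (a : ℝ) (ha : 0 ≤ a) :
    ∫⁻ t in Set.Ioi (0 : ℝ), ENNReal.ofReal (Real.exp (-t) * t ^ n / (n.factorial : ℝ) * a) =
      ENNReal.ofReal a := by
  have h1 : ∀ t : ℝ, Real.exp (-t) * t ^ n / (n.factorial : ℝ) * a =
      (a / (n.factorial : ℝ)) * (Real.exp (-t) * t ^ ((n : ℝ) + 1 - 1)) := by
    intro t
    rw [add_sub_cancel_right, Real.rpow_natCast]
    ring
  simp_rw [h1]
  rw [← ofReal_integral_eq_lintegral_ofReal]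
  · rw [integral_const_mul, ← Real.Gamma_eq_integral (by positivity : (0 : ℝ) < (n : ℝ) + 1),
      Real.Gamma_nat_eq_factorial]
    congr 1
    field_simp
  · exact (Real.GammaIntegral_convergent (by positivity : (0 : ℝ) < (n : ℝ) + 1)).const_mul _
  · refine (ae_restrict_iff' measurableSet_Ioi).mpr (Filter.Eventually.of_forall fun t ht => ?_)
    have ht' : (0 : ℝ) < t := ht
    simp only [Pi.zero_apply]
    positivity

theorem hit_eq (x y : V) : hit G x y = ∑' n : ℕ, ENNReal.ofReal (avoid G y n x) := by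
  unfold hit surv
  rw [lintegral_tsum]
  · exact tsum_congr fun n => lint_poisson n _ (avoid_nonneg y n x)
  · intro n
    apply Measurable.aemeasurable
    fun_prop

/-- Expected hitting time as a real number. -/
def hr (G : SimpleGraph V) [DecidableRel G.Adj] (y x : V) : ℝ := ∑' n : ℕ, avoid G y n x

theorem hit_le (x y : V) : hit G x y ≤ thit G :=
  le_iSup_of_le x (le_iSup_of_le y le_rfl)

theorem summable_avoid (hT : thit G ≠ ⊤) (x y : V) : Summable fun n => avoid G y n x := by
  have h1 : ∑' n : ℕ, ((Real.toNNReal (avoid G y n x) : NNReal) : ℝ≥0∞) ≠ ⊤ := by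
    have h2 : ∑' n : ℕ, ENNReal.ofReal (avoid G y n x) ≠ ⊤ := by
      rw [← hit_eq]
      exact ne_top_of_le_ne_top hT (hit_le x y)
    exact h2
  have h3 := ENNReal.tsum_coe_ne_top_iff_summable.mp h1
  have h4 := NNReal.summable_coe.mpr h3
  refine h4.congr fun n => ?_
  exact Real.coe_toNNReal _ (avoid_nonneg y n x)

theorem hr_le (hT : thit G ≠ ⊤) (x y : V) : hr G y x ≤ (thit G).toReal := by
  have h1 : ENNReal.ofReal (hr G y x) = hit G x y := by
    rw [hit_eq, hr, ENNReal.ofReal_tsum_of_nonneg (avoid_nonneg y · x) (summable_avoid hT x y)]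
  have h2 : ENNReal.ofReal (hr G y x) ≤ thit G := h1 ▸ hit_le x y
  exact (ENNReal.ofReal_le_iff_le_toReal hT).mp h2

theorem hr_self (y : V) : hr G y y = 0 := by
  unfold hr
  have : (fun n => avoid G y n y) = fun _ => 0 := by
    funext n
    cases n <;> simp [avoid]
  rw [this]; exact tsum_zero

theorem hr_step (hT : thit G ≠ ⊤) {x y : V} (hxy : x ≠ y) :
    hr G y x = 1 + ∑ z, P G x z * hr G y z := by
  unfold hr
  rw [(summable_avoid hT x y).tsum_eq_zero_add]
  congr 1
  · simp [avoid, hxy]
  · simp only [avoid, if_neg hxy]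
    rw [Summable.tsum_finsetSum (fun z _ => (summable_avoid hT z y).mul_left _)]
    exact Finset.sum_congr rfl fun z _ => tsum_mul_left

/-- Edge weights `w(x,y) = π(x) P(x,y)`. -/
def w (G : SimpleGraph V) [DecidableRel G.Adj] (x y : V) : ℝ := stat G x * P G x y

theorem stat_nonneg (x : V) : 0 ≤ stat G x := by unfold stat; positivity

theorem w_nonneg (x y : V) : 0 ≤ w G x y := mul_nonneg (stat_nonneg x) (P_nonneg x y)

theorem w_eq (x y : V) : w G x y = if G.Adj x y then 1 / (2 * (G.edgeFinset.card : ℝ)) else 0 := by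
  unfold w stat P
  split_ifs with h
  · have : 0 < G.degree x := (G.degree_pos_iff_exists_adj x).mpr ⟨y, h⟩
    have h' : (0 : ℝ) < G.degree x := by exact_mod_cast this
    field_simp
  · simp

theorem w_symm (x y : V) : w G x y = w G y x := by
  rw [w_eq, w_eq]; simp only [G.adj_comm]

theorem w_sum (x : V) : ∑ y, w G x y = stat G x := by
  simp_rw [w_eq]
  rw [← Finset.sum_filter, Finset.sum_const, nsmul_eq_mul]
  have : (univ.filter fun y => G.Adj x y) = G.neighborFinset x := by
    ext y; simp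
  rw [this, G.card_neighborFinset_eq_degree]
  unfold stat
  ring

/-- The bilinear Dirichlet form. -/
def bil (G : SimpleGraph V) [DecidableRel G.Adj] (f g : V → ℝ) : ℝ :=
  (1 / 2) * ∑ x, ∑ y, w G x y * ((f x - f y) * (g x - g y))

theorem energy_eq (f : V → ℝ) : energy G f = bil G f f := by
  unfold energy bil w
  congr 1
  refine Finset.sum_congr rfl fun x _ => Finset.sum_congr rfl fun y _ => ?_
  ring

theorem bil_eq (f g : V → ℝ) :
    bil G f g = ∑ x, g x * ∑ y, w G x y * (f x - f y) := by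
  have h1 : ∑ x, ∑ y, w G x y * ((f x - f y) * (g x - g y)) =
      (∑ x, ∑ y, g x * (w G x y * (f x - f y))) +
      ∑ x, ∑ y, g y * (w G x y * (f y - f x)) := by
    rw [← Finset.sum_add_distrib]
    refine Finset.sum_congr rfl fun x _ => ?_
    rw [← Finset.sum_add_distrib]
    refine Finset.sum_congr rfl fun y _ => ?_
    ring
  have h2 : ∑ x, ∑ y, g y * (w G x y * (f y - f x)) =
      ∑ x, ∑ y, g x * (w G x y * (f x - f y)) := by
    rw [Finset.sum_comm]
    refine Finset.sum_congr rfl fun x _ => Finset.sum_congr rfl fun y _ => ?_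
    rw [w_symm]
  unfold bil
  rw [h1, h2]
  simp_rw [← Finset.mul_sum]
  ring

theorem bil_hr (hT : thit G ≠ ⊤) (y : V) (g : V → ℝ) (hg : g y = 0) :
    bil G (hr G y) g = ∑ x, stat G x * g x := by
  rw [bil_eq]
  refine Finset.sum_congr rfl fun x _ => ?_
  by_cases hxy : x = y
  · subst hxy; rw [hg]; ring
  · have h1 : ∑ z, w G x z * (hr G y x - hr G y z) =
        stat G x * hr G y x - stat G x * ∑ z, P G x z * hr G y z := by
      simp_rw [mul_sub]
      rw [Finset.sum_sub_distrib, ← Finset.sum_mul, w_sum, Finset.mul_sum]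
      congr 1
      refine Finset.sum_congr rfl fun z _ => ?_
      unfold w; ring
    rw [h1, ← mul_sub]
    nth_rewrite 1 [hr_step hT hxy]
    ring

theorem bil_cs (f g : V → ℝ) : (bil G f g) ^ 2 ≤ bil G f f * bil G g g := by
  have key := Finset.sum_mul_sq_le_sq_mul_sq (univ ×ˢ univ : Finset (V × V))
    (fun p => Real.sqrt (w G p.1 p.2) * (f p.1 - f p.2))
    (fun p => Real.sqrt (w G p.1 p.2) * (g p.1 - g p.2))
  rw [Finset.sum_product, Finset.sum_product, Finset.sum_product] at key
  have e1 : ∀ x y, Real.sqrt (w G x y) * (f x - f y) * (Real.sqrt (w G x y) * (g x - g y)) =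
      w G x y * ((f x - f y) * (g x - g y)) := by
    intro x y
    have := Real.mul_self_sqrt (w_nonneg (G := G) x y)
    calc _ = (Real.sqrt (w G x y) * Real.sqrt (w G x y)) * ((f x - f y) * (g x - g y)) := by ring
      _ = _ := by rw [this]
  have e2 : ∀ (u : V → ℝ) x y, (Real.sqrt (w G x y) * (u x - u y)) ^ 2 =
      w G x y * ((u x - u y) * (u x - u y)) := by
    intro u x y
    have := Real.sq_sqrt (w_nonneg (G := G) x y)
    rw [mul_pow, this]; ring
  simp only [e1, e2] at key
  unfold bil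
  nlinarith [key]

theorem capacity (hT : thit G ≠ ⊤) (hs : ∑ x, stat G x = 1) (y : V) (g : V → ℝ) (hg : g y = 0) :
    (∑ x, stat G x * g x) ^ 2 ≤ (thit G).toReal * energy G g := by
  have h1 := bil_cs (G := G) (hr G y) g
  rw [bil_hr hT y g hg, bil_hr hT y _ (hr_self y), ← energy_eq] at h1
  have h2 : ∑ x, stat G x * hr G y x ≤ (thit G).toReal := by
    calc ∑ x, stat G x * hr G y x ≤ ∑ x, stat G x * (thit G).toReal :=
          Finset.sum_le_sum fun x _ => mul_le_mul_of_nonneg_left (hr_le hT x y) (stat_nonneg x)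
      _ = (thit G).toReal := by rw [← Finset.sum_mul, hs, one_mul]
  have h3 : 0 ≤ energy G g := by
    unfold energy
    have : 0 ≤ ∑ x, ∑ y, stat G x * P G x y * (g x - g y) ^ 2 :=
      Finset.sum_nonneg fun x _ => Finset.sum_nonneg fun y _ =>
        mul_nonneg (w_nonneg x y) (sq_nonneg _)
    linarith
  exact h1.trans (mul_le_mul_of_nonneg_right h2 h3)

theorem energy_mono (f g : V → ℝ) (c : ℝ) (h : ∀ x y, (f x - f y) ^ 2 ≤ c * (g x - g y) ^ 2) :
    energy G f ≤ c * energy G g := by
  unfold energy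
  have key : ∑ x, ∑ y, stat G x * P G x y * (f x - f y) ^ 2 ≤
      c * ∑ x, ∑ y, stat G x * P G x y * (g x - g y) ^ 2 := by
    rw [Finset.mul_sum]
    refine Finset.sum_le_sum fun x _ => ?_
    rw [Finset.mul_sum]
    refine Finset.sum_le_sum fun y _ => ?_
    have := mul_le_mul_of_nonneg_left (h x y) (w_nonneg (G := G) x y)
    unfold w at this
    linarith
  linarith

/-- The Poincare inequality with constant the maximal hitting time. -/
theorem gap_bound (hT : thit G ≠ ⊤) (hs : ∑ x, stat G x = 1) (h : V → ℝ) :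
    variance G h ≤ (thit G).toReal * energy G h := by
  have h1 : ∀ y, stat G y * ((∑ x, stat G x * h x) - h y) ^ 2 ≤
      stat G y * ((thit G).toReal * energy G h) := by
    intro y
    refine mul_le_mul_of_nonneg_left ?_ (stat_nonneg y)
    have h2 := capacity hT hs y (fun x => h x - h y) (by simp)
    have h3 : ∑ x, stat G x * (h x - h y) = (∑ x, stat G x * h x) - h y := by
      simp_rw [mul_sub]
      rw [Finset.sum_sub_distrib, ← Finset.sum_mul, hs, one_mul]
    rw [h3] at h2
    refine h2.trans (le_of_eq ?_)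
    congr 1
    unfold energy
    simp
  have h4 := Finset.sum_le_sum fun y (_ : y ∈ univ) => h1 y
  rw [← Finset.sum_mul, hs, one_mul] at h4
  refine le_trans (le_of_eq ?_) h4
  unfold variance
  have h5 : ∀ y, stat G y * ((∑ x, stat G x * h x) - h y) ^ 2 =
      stat G y * (h y) ^ 2 - 2 * (∑ x, stat G x * h x) * (stat G y * h y) +
        (∑ x, stat G x * h x) ^ 2 * stat G y := by
    intro y; ring
  simp_rw [h5]
  rw [Finset.sum_add_distrib, Finset.sum_sub_distrib, ← Finset.mul_sum, ← Finset.mul_sum, hs]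
  ring

/-- The profile bound at small measure. -/
theorem small_bound (hT : thit G ≠ ⊤) (hs : ∑ x, stat G x = 1) (h : V → ℝ) (δ : ℝ)
    (hδ : suppMass G h ≤ δ) (hδ2 : δ ≤ 1 / 2) :
    variance G h ≤ 4 * δ * (thit G).toReal * energy G h := by
  have hE : 0 ≤ energy G h := by
    unfold energy
    have : 0 ≤ ∑ x, ∑ y, stat G x * P G x y * (h x - h y) ^ 2 :=
      Finset.sum_nonneg fun x _ => Finset.sum_nonneg fun y _ =>
        mul_nonneg (w_nonneg x y) (sq_nonneg _)
    linarith
  have hT0 : 0 ≤ (thit G).toReal := ENNReal.toReal_nonneg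
  have key : ∀ y, (h y) ^ 2 ≤ 4 * ((thit G).toReal * energy G h) := by
    intro y
    by_cases hy : h y = 0
    · rw [hy]; have := mul_nonneg hT0 hE; nlinarith
    have hy' : 0 < |h y| := abs_pos.mpr hy
    let g : V → ℝ := fun x => max 0 (1 - |h x| / |h y|)
    have hgy : g y = 0 := by
      simp only [g, div_self hy'.ne']; simp
    have h1 := capacity hT hs y g hgy
    have h2 : 1 / 2 ≤ ∑ x, stat G x * g x := by
      have h3 : ∑ x, stat G x * g x ≥ ∑ x, (stat G x - if h x ≠ 0 then stat G x else 0) := by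
        refine Finset.sum_le_sum fun x _ => ?_
        by_cases hx : h x = 0
        · simp [g, hx]
        · simp only [ne_eq, hx, not_false_eq_true, if_true, sub_self]
          exact mul_nonneg (stat_nonneg x) (le_max_left _ _)
      rw [Finset.sum_sub_distrib, hs] at h3
      have h4 : ∑ x, (if h x ≠ 0 then stat G x else 0) ≤ 1 / 2 := hδ.trans hδ2
      linarith
    have h5 : energy G g ≤ (1 / |h y| ^ 2) * energy G h := by
      apply energy_mono
      intro x z
      have h6 : |g x - g z| ≤ |h x - h z| / |h y| := by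
        have h7 : |g x - g z| ≤ |(1 - |h x| / |h y|) - (1 - |h z| / |h y|)| := by
          have := abs_max_sub_max_le_abs (1 - |h x| / |h y|) (1 - |h z| / |h y|) 0
          simpa [g, max_comm] using this
        refine h7.trans ?_
        have h8 : (1 - |h x| / |h y|) - (1 - |h z| / |h y|) = -((|h x| - |h z|) / |h y|) := by ring
        rw [h8, abs_neg, abs_div, abs_abs]
        exact div_le_div_of_nonneg_right (abs_abs_sub_abs_le _ _) hy'.le
      calc (g x - g z) ^ 2 = |g x - g z| ^ 2 := (sq_abs _).symm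
        _ ≤ (|h x - h z| / |h y|) ^ 2 := pow_le_pow_left₀ (abs_nonneg _) h6 2
        _ = 1 / |h y| ^ 2 * (h x - h z) ^ 2 := by rw [div_pow, sq_abs (h x - h z)]; ring
    have h9 : (1 / 2 : ℝ) ^ 2 ≤ (∑ x, stat G x * g x) ^ 2 := pow_le_pow_left₀ (by norm_num) h2 2
    have h10 : (1 / 4 : ℝ) ≤ (thit G).toReal * ((1 / |h y| ^ 2) * energy G h) := by
      have := h9.trans (h1.trans (mul_le_mul_of_nonneg_left h5 hT0))
      norm_num at this ⊢
      linarith
    have h11 : 0 < |h y| ^ 2 := by positivity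
    have h12 : (thit G).toReal * ((1 / |h y| ^ 2) * energy G h) =
        (thit G).toReal * energy G h / |h y| ^ 2 := by ring
    rw [h12, le_div_iff₀ h11, sq_abs] at h10
    linarith
  have h13 : ∑ x, stat G x * (h x) ^ 2 ≤
      ∑ x, (if h x ≠ 0 then stat G x else 0) * (4 * ((thit G).toReal * energy G h)) := by
    refine Finset.sum_le_sum fun x _ => ?_
    by_cases hx : h x = 0
    · simp [hx]
    · simp only [ne_eq, hx, not_false_eq_true, if_true]
      exact mul_le_mul_of_nonneg_left (key x) (stat_nonneg x)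
  rw [← Finset.sum_mul] at h13
  have h14 : (∑ x, (if h x ≠ 0 then stat G x else 0)) * (4 * ((thit G).toReal * energy G h)) ≤
      δ * (4 * ((thit G).toReal * energy G h)) :=
    mul_le_mul_of_nonneg_right hδ (by positivity)
  unfold variance
  nlinarith [sq_nonneg (∑ x, stat G x * h x)]

theorem stat_sum_of_variance (h : V → ℝ) (hv : variance G h = 1) : ∑ x, stat G x = 1 := by
  by_cases hE : G.edgeFinset.card = 0
  · exfalso
    have : ∀ x, stat G x = 0 := by intro x; simp [stat, hE]
    simp [variance, this] at hv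
  · have h2 := G.sum_degrees_eq_twice_card_edges
    unfold stat
    rw [← Finset.sum_div]
    have h3 : (∑ x, (G.degree x : ℝ)) = 2 * (G.edgeFinset.card : ℝ) := by exact_mod_cast h2
    rw [h3]
    have : (G.edgeFinset.card : ℝ) ≠ 0 := by exact_mod_cast hE
    field_simp

theorem inv_profile_le (δ c : ℝ) (hc : 0 ≤ c)
    (hb : ∀ h : V → ℝ, variance G h = 1 → suppMass G h ≤ δ → 1 ≤ c * energy G h) :
    (profile G δ)⁻¹ ≤ ENNReal.ofReal c := by
  rw [ENNReal.inv_le_iff_inv_le]
  unfold profile
  refine le_iInf fun h => ?_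
  have h1 := hb h.1 h.2.1 h.2.2
  have hc' : 0 < c := by
    rcases hc.lt_or_eq with h2 | h2
    · exact h2
    · rw [← h2] at h1; norm_num at h1
  rw [← ENNReal.ofReal_inv_of_pos hc']
  apply ENNReal.ofReal_le_ofReal
  rw [inv_le_iff_one_le_mul₀ hc']
  linarith

end Proof

/-- **Main theorem.** For every finite connected graph `G` (in particular for every finite
connected Cayley graph), `t_sp(G) ≤ 11 t_hit(G)`. -/
theorem result (V : Type) [Fintype V] [DecidableEq V] (G : SimpleGraph V) [DecidableRel G.Adj]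
    (_hG : G.Connected) : tsp G ≤ 11 * thit G := by
  by_cases hT : thit G = ⊤
  · rw [hT]; simp
  set T := (thit G).toReal with hTdef
  have hT0 : 0 ≤ T := ENNReal.toReal_nonneg
  have hTT : ENNReal.ofReal T = thit G := ENNReal.ofReal_toReal hT
  have hb1 : ∀ δ : ℝ, (profile G δ)⁻¹ ≤ ENNReal.ofReal T := by
    intro δ
    refine inv_profile_le δ T hT0 fun h hv _ => ?_
    rw [← hv]
    exact gap_bound hT (stat_sum_of_variance h hv) h
  have hb2 : ∀ δ : ℝ, 0 < δ → δ ≤ 1 / 2 → (profile G δ)⁻¹ ≤ ENNReal.ofReal (4 * δ * T) := by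
    intro δ hδ0 hδ
    refine inv_profile_le δ _ (by positivity) fun h hv hsupp => ?_
    rw [← hv]
    exact small_bound hT (stat_sum_of_variance h hv) h δ hsupp hδ
  have hmin : 0 ≤ piMin G := Real.iInf_nonneg fun x => stat_nonneg x
  have hpt : ∀ δ ∈ Set.Ioc (4 * piMin G) 16, 2 / (ENNReal.ofReal δ * profile G δ) ≤
      (Set.Ioc (0 : ℝ) (1 / 2)).indicator (fun _ => ENNReal.ofReal (8 * T)) δ +
        (Set.Ioc (1 / 2 : ℝ) 16).indicator (fun δ => ENNReal.ofReal (2 * T * (1 / δ))) δ := by
    intro δ hδ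
    have hδ0 : 0 < δ := lt_of_le_of_lt (by linarith) hδ.1
    have e1 : 2 / (ENNReal.ofReal δ * profile G δ) = ENNReal.ofReal (2 / δ) * (profile G δ)⁻¹ := by
      rw [ENNReal.div_eq_inv_mul, ENNReal.mul_inv (Or.inl (by simpa using hδ0))
        (Or.inl ENNReal.ofReal_ne_top), ENNReal.ofReal_div_of_pos hδ0, ENNReal.div_eq_inv_mul]
      rw [ENNReal.ofReal_ofNat]
      ring
    rw [e1]
    by_cases hd : δ ≤ 1 / 2
    · have m1 : δ ∈ Set.Ioc (0 : ℝ) (1 / 2) := ⟨hδ0, hd⟩
      rw [Set.indicator_of_mem m1]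
      refine le_trans ?_ le_self_add
      calc ENNReal.ofReal (2 / δ) * (profile G δ)⁻¹
          ≤ ENNReal.ofReal (2 / δ) * ENNReal.ofReal (4 * δ * T) := by
            gcongr; exact hb2 δ hδ0 hd
        _ = ENNReal.ofReal (8 * T) := by
            rw [← ENNReal.ofReal_mul (by positivity)]
            congr 1; field_simp; ring
    · have m1 : δ ∈ Set.Ioc (1 / 2 : ℝ) 16 := ⟨not_le.mp hd, hδ.2⟩
      rw [Set.indicator_of_mem m1]
      refine le_trans ?_ le_add_self
      calc ENNReal.ofReal (2 / δ) * (profile G δ)⁻¹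
          ≤ ENNReal.ofReal (2 / δ) * ENNReal.ofReal T := by
            gcongr; exact hb1 δ
        _ = ENNReal.ofReal (2 * T * (1 / δ)) := by
            rw [← ENNReal.ofReal_mul (by positivity)]
            congr 1; ring
  have hcalc : tsp G ≤ ∫⁻ δ : ℝ,
      ((Set.Ioc (0 : ℝ) (1 / 2)).indicator (fun _ => ENNReal.ofReal (8 * T)) δ +
        (Set.Ioc (1 / 2 : ℝ) 16).indicator (fun δ => ENNReal.ofReal (2 * T * (1 / δ))) δ) := by
    unfold tsp
    calc ∫⁻ δ in Set.Ioc (4 * piMin G) 16, 2 / (ENNReal.ofReal δ * profile G δ)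
        ≤ ∫⁻ δ in Set.Ioc (4 * piMin G) 16,
          ((Set.Ioc (0 : ℝ) (1 / 2)).indicator (fun _ => ENNReal.ofReal (8 * T)) δ +
          (Set.Ioc (1 / 2 : ℝ) 16).indicator (fun δ => ENNReal.ofReal (2 * T * (1 / δ))) δ) := by
          refine lintegral_mono_ae ?_
          refine (ae_restrict_iff' measurableSet_Ioc).mpr (Filter.Eventually.of_forall ?_)
          exact hpt
      _ ≤ _ := setLIntegral_le_lintegral _ _
  refine hcalc.trans ?_
  rw [lintegral_add_left (by exact (measurable_const.indicator measurableSet_Ioc)),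
    lintegral_indicator measurableSet_Ioc, lintegral_indicator measurableSet_Ioc]
  have i1 : ∫⁻ _ in Set.Ioc (0 : ℝ) (1 / 2), ENNReal.ofReal (8 * T) = ENNReal.ofReal (4 * T) := by
    rw [setLIntegral_const, Real.volume_Ioc, ← ENNReal.ofReal_mul (by positivity)]
    congr 1; ring
  have i2 : ∫⁻ δ in Set.Ioc (1 / 2 : ℝ) 16, ENNReal.ofReal (2 * T * (1 / δ)) ≤
      ENNReal.ofReal (7 * T) := by
    rw [← ofReal_integral_eq_lintegral_ofReal]
    · apply ENNReal.ofReal_le_ofReal
      rw [integral_const_mul, ← intervalIntegral.integral_of_le (by norm_num),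
        integral_one_div_of_pos (by norm_num) (by norm_num)]
      have h32 : (16 : ℝ) / (1 / 2) = 2 ^ 5 := by norm_num
      rw [h32, Real.log_pow]
      have := Real.log_two_lt_d9
      push_cast
      nlinarith
    · have : IntegrableOn (fun δ : ℝ => 1 / δ) (Set.Ioc (1 / 2 : ℝ) 16) := by
        rw [← intervalIntegrable_iff_integrableOn_Ioc_of_le (by norm_num)]
        apply intervalIntegral.intervalIntegrable_one_div
        · intro x hx
          rw [Set.uIcc_of_le (by norm_num)] at hx
          have := hx.1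
          intro h0; rw [h0] at this; norm_num at this
        · exact continuousOn_id
      exact this.const_mul _
    · refine (ae_restrict_iff' measurableSet_Ioc).mpr (Filter.Eventually.of_forall fun t ht => ?_)
      have ht' : (0 : ℝ) < t := lt_trans (by norm_num) ht.1
      simp only [Pi.zero_apply]
      positivity
  rw [i1]
  calc ENNReal.ofReal (4 * T) + ∫⁻ δ in Set.Ioc (1 / 2 : ℝ) 16, ENNReal.ofReal (2 * T * (1 / δ))
      ≤ ENNReal.ofReal (4 * T) + ENNReal.ofReal (7 * T) := by gcongr
    _ = ENNReal.ofReal (11 * T) := by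
        rw [← ENNReal.ofReal_add (by positivity) (by positivity)]; congr 1; ring
    _ = 11 * thit G := by
        rw [ENNReal.ofReal_mul (by norm_num), hTT]
        norm_num

end

end Pool.Agent.Results.MP_cb142b_pr.AllGraphs
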